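import Pool.Agent.H170IC.Thm

set_option autoImplicit false
set_option maxHeartbeats 400000

noncomputable section

namespace Pool.Agent.H170IC

open Ideal MvPolynomial

theorem cast_aux (n : ℕ) (h1 : (((n : ℕ∞) : WithBot ℕ∞)) + 1 + 1 ≤ 2) : n + 1 + 1 ≤ 2 := by
  have h2 : (((n : ℕ∞) + 1 + 1 : ℕ∞) : WithBot ℕ∞) ≤ ((2 : ℕ∞) : WithBot ℕ∞) := h1
  have h3 : (n : ℕ∞) + 1 + 1 ≤ 2 := WithBot.coe_le_coe.1 h2
  exact_mod_cast h3

theorem idem_or_local (A : Type) [CommRing A] [IsArtinianRing A] :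
    (∃ e : A, e * e = e ∧ e ≠ 0 ∧ e ≠ 1) ∨ ∀ x : A, IsUnit x ∨ IsNilpotent x := by
  by_cases h : ∀ x : A, IsUnit x ∨ IsNilpotent x
  · exact Or.inr h
  · left
    push Not at h
    obtain ⟨x, h1, h2⟩ := h
    obtain ⟨n, y, hy⟩ := IsArtinian.exists_pow_succ_smul_dvd x (1 : A)
    rw [smul_eq_mul, smul_eq_mul, mul_one] at hy
    have hk : ∀ k, x ^ n = x ^ (n + k) * y ^ k := by
      intro k
      induction k with
      | zero => rw [add_zero, pow_zero, mul_one]
      | succ k ih =>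
        have e1 : x ^ (n + (k + 1)) * y ^ (k + 1) = (x ^ n.succ * y) * (x ^ k * y ^ k) := by
          rw [Nat.succ_eq_add_one]; ring
        rw [e1, hy]
        rw [← mul_assoc, ← pow_add]
        exact ih
    have hn : n ≠ 0 := by
      intro hn
      rw [hn] at hy
      apply h1
      rw [Nat.succ_eq_add_one, zero_add, pow_one, pow_zero] at hy
      exact IsUnit.of_mul_eq_one y hy
    have hx := hk n
    refine ⟨x ^ n * y ^ n, ?_, ?_, ?_⟩
    · calc x ^ n * y ^ n * (x ^ n * y ^ n) = (x ^ (n + n) * y ^ n) * y ^ n := by ring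
        _ = x ^ n * y ^ n := by rw [← hx]
    · intro h0
      apply h2
      refine ⟨n, ?_⟩
      rw [hx, pow_add, mul_assoc, h0, mul_zero]
    · intro h0
      apply h1
      rw [← mul_pow] at h0
      obtain ⟨l, rfl⟩ : ∃ l, n = l + 1 := ⟨n - 1, by omega⟩
      rw [pow_succ, mul_comm] at h0
      exact IsUnit.of_mul_eq_one (y * (x * y) ^ l) (by rw [← h0]; ring)

/-- Wiebe's lemma -/
theorem wiebe {S : Type} [CommRing S] [IsDomain S] (a b f h : S) (ha : a ≠ 0)
    (R1 : ∀ u v, u * a = v * b → ∃ w, u = w * b ∧ v = w * a)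
    (R2 : ∀ u v, u * f = v * h → ∃ w, u = w * h ∧ v = w * f)
    (α β γ δ : S) (hf : f = α * a + β * b) (hh : h = γ * a + δ * b) (u : S)
    (hu1 : ∃ p q, u * a = p * f + q * h) (hu2 : ∃ r s, u * b = r * f + s * h) :
    ∃ w v1 v2, u = w * (α * δ - β * γ) + v1 * f + v2 * h := by
  obtain ⟨p, q, h1⟩ := hu1
  obtain ⟨r, s, h2⟩ := hu2
  have h3 : (b * p - a * r) * f = (a * s - b * q) * h := by
    linear_combination a * h2 - b * h1
  obtain ⟨w, hw1, hw2⟩ := R2 _ _ h3
  have h4 : (r + w * γ) * a = (p - w * δ) * b := by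
    rw [hh] at hw1
    linear_combination -hw1
  obtain ⟨v1, hv1, hv1'⟩ := R1 _ _ h4
  have h5 : (s - w * α) * a = (q + w * β) * b := by
    rw [hf] at hw2
    linear_combination hw2
  obtain ⟨v2, hv2, hv2'⟩ := R1 _ _ h5
  refine ⟨w, v1, v2, ?_⟩
  have h6 : a * (u - (w * (α * δ - β * γ) + v1 * f + v2 * h)) = 0 := by
    have e1 : p = w * δ + v1 * a := by linear_combination hv1'
    have e2 : q = -w * β + v2 * a := by linear_combination hv2'
    rw [e1, e2] at h1
    linear_combination h1 + w * δ * hf - w * β * hh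
  rcases mul_eq_zero.1 h6 with h7 | h7
  · exact absurd h7 ha
  · exact sub_eq_zero.1 h7

variable (K : Type) [Field K]

theorem taylor (c : Fin 2 → K) (g : MvPolynomial (Fin 2) K) : ∃ u v,
    g = C (eval c g) + u * (X 0 - C (c 0)) + v * (X 1 - C (c 1)) := by
  induction g using MvPolynomial.induction_on with
  | C r => exact ⟨0, 0, by simp⟩
  | add p q hp hq =>
    obtain ⟨u, v, h1⟩ := hp
    obtain ⟨u', v', h2⟩ := hq
    refine ⟨u + u', v + v', ?_⟩
    rw [map_add, map_add]
    linear_combination h1 + h2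
  | mul_X p i hp =>
    obtain ⟨u, v, h1⟩ := hp
    rw [map_mul, eval_X, map_mul]
    fin_cases i
    · refine ⟨u * X 0 + C (eval c p), v * X 0, ?_⟩
      simp only [Fin.zero_eta]
      linear_combination (X 0) * h1
    · refine ⟨u * X 1, v * X 1 + C (eval c p), ?_⟩
      simp only [Fin.mk_one]
      linear_combination (X 1) * h1

theorem primeX (c : K) : Prime (X 0 - C c : MvPolynomial (Fin 2) K) := by
  rw [← MulEquiv.prime_iff (finSuccEquiv K 1)]
  rw [map_sub, finSuccEquiv_X_zero]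
  have : (finSuccEquiv K 1) (C c) = Polynomial.C (C c) := by
    rw [← MvPolynomial.algebraMap_eq, AlgEquiv.commutes]; rfl
  rw [this]
  exact Polynomial.prime_X_sub_C _

theorem not_dvdX (c d : K) : ¬ (X 0 - C c : MvPolynomial (Fin 2) K) ∣ (X 1 - C d) := by
  rintro ⟨g, hg⟩
  have h1 := congrArg (eval ![c, d + 1]) hg
  simp at h1

theorem R1' (c : Fin 2 → K) (u v : MvPolynomial (Fin 2) K)
    (h : u * (X 0 - C (c 0)) = v * (X 1 - C (c 1))) :
    ∃ w, u = w * (X 1 - C (c 1)) ∧ v = w * (X 0 - C (c 0)) := by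
  have hp := primeX K (c 0)
  have h1 : (X 0 - C (c 0) : MvPolynomial (Fin 2) K) ∣ v * (X 1 - C (c 1)) :=
    ⟨u, by rw [← h]; ring⟩
  rcases hp.dvd_or_dvd h1 with ⟨w, hw⟩ | h2
  · refine ⟨w, ?_, by rw [hw]; ring⟩
    have h3 : (X 0 - C (c 0)) * (u - w * (X 1 - C (c 1))) = 0 := by
      rw [hw] at h
      linear_combination h
    rcases mul_eq_zero.1 h3 with h4 | h4
    · exact absurd h4 hp.ne_zero
    · exact sub_eq_zero.1 h4
  · exact absurd h2 (not_dvdX K _ _)

theorem mem_span_mk {S : Type} [CommRing S] (f α x : S) :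
    Ideal.Quotient.mk (span {f}) x ∈ span {Ideal.Quotient.mk (span {f}) α} ↔
      x ∈ span {f} ⊔ span {α} := by
  have h1 := comap_sup (Ideal.Quotient.mk (span {f})) Ideal.Quotient.mk_surjective ⊥ α
  rw [bot_sup_eq] at h1
  have h2 : Ideal.comap (Ideal.Quotient.mk (span {f})) ⊥ = span {f} := Ideal.mk_ker
  rw [h2] at h1
  rw [← h1, mem_comap]

/-- plane curves -/
theorem gor_curve [IsAlgClosed K] (f : MvPolynomial (Fin 2) K) (hf : Irreducible f) :
    Gor (MvPolynomial (Fin 2) K ⧸ span {f}) := by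
  classical
  have hfp : Prime f := hf.prime
  have hprime : (span {f}).IsPrime := (span_singleton_prime hfp.ne_zero).2 hfp
  intro α hα htop
  obtain ⟨α, rfl⟩ := Ideal.Quotient.mk_surjective α
  have hfα : ¬ f ∣ α := by
    intro h
    apply hα
    rw [Ideal.Quotient.eq_zero_iff_mem]
    exact mem_span_singleton.2 h
  obtain ⟨J, hJ⟩ : ∃ J, J = span {f} ⊔ span {α} := ⟨_, rfl⟩
  have hmem : ∀ x, Ideal.Quotient.mk (span {f}) x ∈ span {Ideal.Quotient.mk (span {f}) α} ↔
      x ∈ J := fun x => by rw [mem_span_mk, hJ]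
  -- dimension
  let O := MvPolynomial (Fin 2) K ⧸ span {f}
  let A := O ⧸ span {Ideal.Quotient.mk (span {f}) α}
  have hd1 : ringKrullDim O + 1 ≤ 2 := by
    have h1 := ringKrullDim_quotient_succ_le_of_nonZeroDivisor
      (mem_nonZeroDivisors_of_ne_zero hfp.ne_zero : f ∈ nonZeroDivisors (MvPolynomial (Fin 2) K))
    rw [MvPolynomial.ringKrullDim_of_isNoetherianRing, ringKrullDim_eq_zero_of_field] at h1
    simpa using h1
  have hd2 : ringKrullDim A + 1 ≤ ringKrullDim O :=
    ringKrullDim_quotient_succ_le_of_nonZeroDivisor (mem_nonZeroDivisors_of_ne_zero hα)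
  have hAn : Nontrivial A := Ideal.Quotient.nontrivial_iff.2 htop
  have hd3 : ringKrullDim A ≤ 0 := by
    have h1 : ringKrullDim A + 1 + 1 ≤ 2 := (add_le_add_left hd2 1).trans hd1
    have h2 : (0 : WithBot ℕ∞) ≤ ringKrullDim A := ringKrullDim_nonneg_of_nontrivial
    generalize ringKrullDim A = x at h1 h2 ⊢
    induction x using WithBot.recBotCoe with
    | bot => simp at h2
    | coe x =>
      induction x using ENat.recTopCoe with
      | top => exact absurd h1 (by decide)
      | coe n =>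
        have h4 : n + 1 + 1 ≤ 2 := cast_aux n h1
        have h5 : n = 0 := by omega
        rw [h5]; simp
  have hKd : Ring.KrullDimLE 0 A := by
    rw [Ring.KrullDimLE, Order.krullDimLE_iff]
    exact_mod_cast hd3
  have hArt : IsArtinianRing A := by
    have := hKd
    exact IsNoetherianRing.isArtinianRing_of_krullDimLE_zero (R := A)
  rcases idem_or_local A with ⟨e, h1, h2, h3⟩ | hloc
  · left
    obtain ⟨e, rfl⟩ := Ideal.Quotient.mk_surjective e
    refine ⟨e, ?_, ?_, ?_⟩
    · rw [← Ideal.Quotient.eq_zero_iff_mem, map_sub, map_mul, h1, sub_self]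
    · intro h; exact h2 (Ideal.Quotient.eq_zero_iff_mem.2 h)
    · intro h
      have h4 := Ideal.Quotient.eq_zero_iff_mem.2 h
      rw [map_sub, map_one] at h4
      exact h3 (sub_eq_zero.1 h4).symm
  · right
    have hJtop : J ≠ ⊤ := by
      intro h
      apply htop
      rw [Ideal.eq_top_iff_one, ← map_one (Ideal.Quotient.mk (span {f})), hmem, h]
      trivial
    have hmax : J.radical.IsMaximal := by
      rw [Ideal.isMaximal_iff]
      refine ⟨fun h => hJtop (Ideal.radical_eq_top.1 ((Ideal.eq_top_iff_one _).2 h)), ?_⟩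
      intro J' x hJJ' hx hxJ'
      rcases hloc (Ideal.Quotient.mk _ (Ideal.Quotient.mk _ x)) with h1 | h1
      · obtain ⟨y, hy⟩ := h1.exists_right_inv
        obtain ⟨y, rfl⟩ := Ideal.Quotient.mk_surjective y
        obtain ⟨y, rfl⟩ := Ideal.Quotient.mk_surjective y
        have h2 : Ideal.Quotient.mk (span {Ideal.Quotient.mk (span {f}) α})
            (Ideal.Quotient.mk (span {f}) (x * y - 1)) = 0 := by
          rw [map_sub, map_mul, map_sub, map_mul, hy, map_one, map_one, sub_self]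
        rw [Ideal.Quotient.eq_zero_iff_mem, hmem] at h2
        have h3 : x * y - 1 ∈ J' := hJJ' (Ideal.le_radical h2)
        have h4 : x * y - (x * y - 1) ∈ J' := J'.sub_mem (J'.mul_mem_right _ hxJ') h3
        simpa using h4
      · exfalso
        obtain ⟨n, hn⟩ := h1
        apply hx
        refine ⟨n, ?_⟩
        rw [← map_pow, ← map_pow, Ideal.Quotient.eq_zero_iff_mem, hmem] at hn
        exact hn
    obtain ⟨c, hc⟩ := MvPolynomial.isMaximal_iff_eq_vanishingIdeal_singleton.1 hmax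
    have hev : ∀ g, g ∈ J.radical → eval c g = 0 := by
      intro g hg
      rw [hc] at hg
      have := hg c rfl
      rwa [MvPolynomial.aeval_eq_eval] at this
    have hev' : ∀ g, eval c g = 0 → g ∈ J.radical := by
      intro g hg
      rw [hc]
      intro x hx
      rw [Set.mem_singleton_iff.1 hx]
      rw [MvPolynomial.aeval_eq_eval]; exact hg
    have hfJ : f ∈ J := by rw [hJ]; exact (le_sup_left : span {f} ≤ _) (mem_span_singleton_self _)
    have hαJ : α ∈ J := by rw [hJ]; exact (le_sup_right : span {α} ≤ _) (mem_span_singleton_self _)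
    obtain ⟨p1, p2, hp⟩ := taylor K c f
    obtain ⟨q1, q2, hq⟩ := taylor K c α
    rw [hev f (Ideal.le_radical hfJ), map_zero, zero_add] at hp
    rw [hev α (Ideal.le_radical hαJ), map_zero, zero_add] at hq
    have hJm : ∀ x, x ∈ J ↔ ∃ r s, x = r * f + s * α := by
      intro x
      rw [hJ, mem_sup_span]
      constructor
      · rintro ⟨j, hj, s, rfl⟩
        obtain ⟨r, rfl⟩ := mem_span_singleton'.1 hj
        exact ⟨r, s, rfl⟩
      · rintro ⟨r, s, rfl⟩
        exact ⟨r * f, mem_span_singleton'.2 ⟨r, rfl⟩, s, rfl⟩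
    have hR2 : ∀ u v, u * f = v * α → ∃ w, u = w * α ∧ v = w * f := by
      intro u v h
      rcases hfp.dvd_or_dvd (⟨u, by rw [← h]; ring⟩ : f ∣ v * α) with ⟨w, hw⟩ | h2
      · refine ⟨w, ?_, by rw [hw]; ring⟩
        have h3 : f * (u - w * α) = 0 := by rw [hw] at h; linear_combination h
        rcases mul_eq_zero.1 h3 with h4 | h4
        · exact absurd h4 hfp.ne_zero
        · exact sub_eq_zero.1 h4
      · exact absurd h2 hfα
    obtain ⟨a, ha⟩ : ∃ a : MvPolynomial (Fin 2) K, a = X 0 - C (c 0) := ⟨_, rfl⟩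
    obtain ⟨b, hb⟩ : ∃ b : MvPolynomial (Fin 2) K, b = X 1 - C (c 1) := ⟨_, rfl⟩
    have ham : a ∈ J.radical := hev' _ (by rw [ha]; simp)
    have hbm : b ∈ J.radical := hev' _ (by rw [hb]; simp)
    rw [← ha, ← hb] at hp hq
    obtain ⟨Δ, hΔ⟩ : ∃ Δ, Δ = p1 * q2 - p2 * q1 := ⟨_, rfl⟩
    have hΔa : a * Δ ∈ J := (hJm _).2 ⟨q2, -p2, by rw [hΔ, hp, hq]; ring⟩
    have hΔb : b * Δ ∈ J := (hJm _).2 ⟨-q1, p1, by rw [hΔ, hp, hq]; ring⟩
    have hΔm : ∀ x ∈ J.radical, x * Δ ∈ J := by
      intro x hx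
      obtain ⟨u, v, h⟩ := taylor K c x
      rw [hev x hx, map_zero, zero_add, ← ha, ← hb] at h
      rw [h]
      have : (u * a + v * b) * Δ = u * (a * Δ) + v * (b * Δ) := by ring
      rw [this]
      exact J.add_mem (J.mul_mem_left _ hΔa) (J.mul_mem_left _ hΔb)
    have hsoc : ∀ s, (∀ x ∈ J.radical, x * s ∈ J) → s ∉ J → ∃ w, w ∉ J.radical ∧ s - w * Δ ∈ J := by
      intro s hs hsJ
      obtain ⟨w, v1, v2, h⟩ := wiebe a b f α (by rw [ha]; exact (primeX K (c 0)).ne_zero)
        (by rw [ha, hb]; exact R1' K c) hR2 p1 p2 q1 q2 hp hq s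
        ((hJm _).1 (by have := hs a ham; rwa [mul_comm] at this))
        ((hJm _).1 (by have := hs b hbm; rwa [mul_comm] at this))
      have h1 : s - w * Δ ∈ J := (hJm _).2 ⟨v1, v2, by rw [hΔ, h]; ring⟩
      refine ⟨w, fun hw => hsJ ?_, h1⟩
      have := J.add_mem h1 (hΔm w hw)
      simpa using this
    obtain ⟨N, hN⟩ := J.exists_radical_pow_le_of_fg J.radical.fg_of_isNoetherianRing
    have hmain : ∀ g, g ∉ J → Δ ∈ J ⊔ span {g} := by
      intro g hg
      have hex : ∃ n, span {g} * J.radical ^ n ≤ J := ⟨N, Ideal.mul_le_right.trans hN⟩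
      obtain ⟨n, hn, hmin⟩ : ∃ n, span {g} * J.radical ^ n ≤ J ∧
          ∀ m < n, ¬ span {g} * J.radical ^ m ≤ J :=
        ⟨Nat.find hex, Nat.find_spec hex, fun m hm => Nat.find_min hex hm⟩
      have hn0 : n ≠ 0 := by
        rintro rfl
        apply hg
        rw [pow_zero, mul_one, span_singleton_le_iff_mem] at hn
        exact hn
      obtain ⟨n, rfl⟩ : ∃ k, n = k + 1 := ⟨n - 1, by omega⟩
      have h1 := hmin n (by omega)
      obtain ⟨s, hs, hsJ⟩ := SetLike.not_le_iff_exists.1 h1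
      have hsm : ∀ x ∈ J.radical, x * s ∈ J := by
        intro x hx
        apply hn
        rw [pow_succ, ← mul_assoc, mul_comm x s]
        exact Ideal.mul_mem_mul hs hx
      have hsg : s ∈ span {g} := Ideal.mul_le_left hs
      obtain ⟨w, hw, hsw⟩ := hsoc s hsm hsJ
      obtain ⟨y, hy⟩ := hmax.exists_inv hw
      obtain ⟨μ, hμ, hyμ⟩ := hy
      have h2 : Δ = -y * (s - w * Δ) + μ * Δ + y * s := by
        linear_combination -Δ * hyμ
      rw [h2]
      refine Ideal.add_mem _ (Ideal.add_mem _ ?_ ?_) ?_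
      · exact (le_sup_left : J ≤ _) (J.mul_mem_left _ hsw)
      · exact (le_sup_left : J ≤ _) (hΔm μ hμ)
      · exact (le_sup_right : span {g} ≤ _) (Ideal.mul_mem_left _ _ hsg)
    refine ⟨Ideal.Quotient.mk _ Δ, ?_, ?_⟩
    · rw [hmem]
      intro hΔJ
      have hex : ∃ n, J.radical ^ n ≤ J := ⟨N, hN⟩
      obtain ⟨n, hn, hmin⟩ : ∃ n, J.radical ^ n ≤ J ∧ ∀ m < n, ¬ J.radical ^ m ≤ J :=
        ⟨Nat.find hex, Nat.find_spec hex, fun m hm => Nat.find_min hex hm⟩
      have hn0 : n ≠ 0 := by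
        rintro rfl
        apply hJtop
        rw [pow_zero, Ideal.one_eq_top, top_le_iff] at hn
        exact hn
      obtain ⟨n, rfl⟩ : ∃ k, n = k + 1 := ⟨n - 1, by omega⟩
      obtain ⟨s, hs, hsJ⟩ := SetLike.not_le_iff_exists.1 (hmin n (by omega))
      have hsm : ∀ x ∈ J.radical, x * s ∈ J := by
        intro x hx
        apply hn
        rw [pow_succ, mul_comm x s]
        exact Ideal.mul_mem_mul hs hx
      obtain ⟨w, -, hsw⟩ := hsoc s hsm hsJ
      apply hsJ
      have := J.add_mem hsw (J.mul_mem_left w hΔJ)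
      simpa using this
    · intro g hg
      obtain ⟨g, rfl⟩ := Ideal.Quotient.mk_surjective g
      rw [hmem] at hg
      obtain ⟨j, hj, r, hr⟩ := mem_sup_span.1 (hmain g hg)
      rw [mem_sup_span]
      exact ⟨Ideal.Quotient.mk _ j, (hmem j).2 hj, Ideal.Quotient.mk _ r, by
        rw [hr, map_add, map_mul]⟩

end Pool.Agent.H170IC
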