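import Pool.Agent.H170IC.Curve

set_option autoImplicit false
set_option maxHeartbeats 400000

noncomputable section

namespace Pool.Agent.H170IC

open Ideal MvPolynomial

theorem two {R O : Type} [CommRing R] [IsNoetherianRing R] [CommRing O] [IsDomain O]
    [IsNoetherianRing O] (π : R →+* O) (hπ : Function.Surjective π) (a : R)
    (hker : ∀ c, π c = 0 ↔ ∃ d, c = d * a) (hreg : ∀ c, c * a = 0 → c = 0) (hG : Gor O)
    (hnf : ¬ (⊥ : Ideal O).IsMaximal) :
    ((∀ t : O, ¬ (span {t}).IsMaximal) → Loses (span {a})) ∧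
    ((∃ t : O, (span {t}).IsMaximal) → Loses (span {a ^ 2})) ∧ Wins (⊥ : Ideal R) := by
  have hπa : π a = 0 := (hker a).2 ⟨1, by ring⟩
  have p1 : (∀ t : O, ¬ (span {t}).IsMaximal) → Loses (span {a}) := by
    intro hT
    have h1 := loses_comap π hπ (loses_bot hG hT)
    have h2 : Ideal.comap π ⊥ = span {a} := by
      ext x
      rw [mem_comap, Ideal.mem_bot, hker, mem_span_singleton']
      exact ⟨fun ⟨d, h⟩ => ⟨d, h.symm⟩, fun ⟨d, h⟩ => ⟨d, h.symm⟩⟩
    rwa [h2] at h1
  have p2 : (∃ t : O, (span {t}).IsMaximal) → Loses (span {a ^ 2}) := by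
    rintro ⟨t, ht⟩
    have hle : ∀ x ∈ span {a ^ 2}, π x = 0 := by
      intro x hx
      obtain ⟨y, rfl⟩ := mem_span_singleton'.1 hx
      rw [map_mul, map_pow, hπa]; ring
    let π' : (R ⧸ span {a ^ 2}) →+* O := Ideal.Quotient.lift (span {a ^ 2}) π hle
    have hπ'm : ∀ x, π' (Ideal.Quotient.mk _ x) = π x := fun x => Ideal.Quotient.lift_mk _ _ _
    have hπ' : Function.Surjective π' := by
      intro y
      obtain ⟨x, rfl⟩ := hπ y
      exact ⟨Ideal.Quotient.mk _ x, hπ'm x⟩
    obtain ⟨t, rfl⟩ := hπ' t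
    have ht0 : π' t ≠ 0 := by
      intro h
      apply hnf
      rw [h] at ht
      rwa [Set.singleton_zero, Ideal.span_zero] at ht
    have hp : (Ideal.Quotient.mk (span {a ^ 2}) a) * (Ideal.Quotient.mk (span {a ^ 2}) a) = 0 := by
      rw [← map_mul, Ideal.Quotient.eq_zero_iff_mem]
      exact mem_span_singleton'.2 ⟨1, by ring⟩
    have hk : ∀ c, π' c = 0 ↔ ∃ d, c = d * (Ideal.Quotient.mk (span {a ^ 2}) a) := by
      intro c
      obtain ⟨x, rfl⟩ := Ideal.Quotient.mk_surjective c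
      rw [hπ'm]
      constructor
      · intro h
        obtain ⟨d, rfl⟩ := (hker x).1 h
        exact ⟨Ideal.Quotient.mk _ d, by rw [map_mul]⟩
      · rintro ⟨d, hd⟩
        rw [← hπ'm, hd, map_mul, hπ'm, hπa, mul_zero]
    have hann : ∀ c, c * (Ideal.Quotient.mk (span {a ^ 2}) a) = 0 → π' c = 0 := by
      intro c hc
      obtain ⟨x, rfl⟩ := Ideal.Quotient.mk_surjective c
      rw [← map_mul, Ideal.Quotient.eq_zero_iff_mem] at hc
      obtain ⟨y, hy⟩ := mem_span_singleton'.1 hc
      have h1 : (x - y * a) * a = 0 := by linear_combination -hy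
      have h2 := hreg _ h1
      rw [hπ'm, hker]
      exact ⟨y, sub_eq_zero.1 h2⟩
    have h1 := loses_double π' hπ' _ hp hk hann hG t ht ht0
    have h2 := loses_comap (Ideal.Quotient.mk (span {a ^ 2})) Ideal.Quotient.mk_surjective h1
    have h3 : Ideal.comap (Ideal.Quotient.mk (span {a ^ 2})) ⊥ = span {a ^ 2} := Ideal.mk_ker
    rwa [h3] at h2
  refine ⟨p1, p2, ?_⟩
  have hnt : span {a} ≠ ⊤ := by
    intro h
    obtain ⟨y, hy⟩ := mem_span_singleton'.1 ((Ideal.eq_top_iff_one _).1 h)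
    have := congrArg π hy
    rw [map_mul, hπa, mul_zero, map_one] at this
    exact zero_ne_one this
  have ha0 : a ≠ 0 := by
    intro h
    have h1 := hreg 1 (by rw [h, mul_zero])
    have h2 := congrArg π h1
    rw [map_one, map_zero] at h2
    exact one_ne_zero h2
  by_cases hT : ∃ t : O, (span {t}).IsMaximal
  · refine wins_of (a ^ 2) ?_ ?_ ?_
    · intro h
      rw [Ideal.mem_bot] at h
      exact ha0 (hreg a (by rw [← h]; ring))
    · rw [bot_sup_eq]
      intro h
      apply hnt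
      rw [eq_top_iff, ← h, span_singleton_le_iff_mem]
      exact mem_span_singleton'.2 ⟨a, by ring⟩
    · rw [bot_sup_eq]; exact p2 hT
  · refine wins_of a ?_ ?_ ?_
    · intro h; exact ha0 h
    · rw [bot_sup_eq]; exact hnt
    · rw [bot_sup_eq]; exact p1 (fun t ht => hT ⟨t, ht⟩)

theorem not_max (K : Type) [Field K] [IsAlgClosed K] (f : MvPolynomial (Fin 2) K)
    (hf : Irreducible f) : ¬ (⊥ : Ideal (MvPolynomial (Fin 2) K ⧸ span {f})).IsMaximal := by
  intro h
  have h1 : (Ideal.comap (Ideal.Quotient.mk (span {f})) ⊥).IsMaximal :=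
    Ideal.comap_isMaximal_of_surjective _ Ideal.Quotient.mk_surjective
  have h2 : Ideal.comap (Ideal.Quotient.mk (span {f})) ⊥ = span {f} := Ideal.mk_ker
  rw [h2] at h1
  obtain ⟨c, hc⟩ := MvPolynomial.isMaximal_iff_eq_vanishingIdeal_singleton.1 h1
  have h3 : ∀ g, eval c g = 0 → f ∣ g := by
    intro g hg
    rw [← mem_span_singleton, hc]
    intro x hx
    rw [Set.mem_singleton_iff.1 hx, MvPolynomial.aeval_eq_eval]
    exact hg
  have h4 : f ∣ X 0 - C (c 0) := h3 _ (by simp)
  have h5 : f ∣ X 1 - C (c 1) := h3 _ (by simp)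
  have h6 := (hf.dvd_symm (primeX K (c 0)).irreducible h4)
  exact not_dvdX K _ _ (h6.trans h5)

theorem fin_succ (K : Type) [Field K] (f : MvPolynomial (Fin 2) K) :
    finSuccEquiv K 2 (rename Fin.succ f) = Polynomial.C f := by
  induction f using MvPolynomial.induction_on with
  | C r =>
    rw [rename_C, ← MvPolynomial.algebraMap_eq, AlgEquiv.commutes]; rfl
  | add p q hp hq => rw [map_add, map_add, hp, hq, map_add]
  | mul_X p i hp =>
    rw [map_mul, map_mul, hp, rename_X, finSuccEquiv_X_succ, map_mul]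

theorem final (K : Type) [Field K] [IsAlgClosed K] (f : MvPolynomial (Fin 2) K)
    (hf : Irreducible f) :
    ((∀ t, ¬ (span {t} : Ideal (MvPolynomial (Fin 2) K ⧸ span {f})).IsMaximal) →
      Loses (⊥ : Ideal (MvPolynomial (Fin 2) K ⧸ span {f})) ∧
      Loses (R := Polynomial (MvPolynomial (Fin 2) K ⧸ span {f})) (span {Polynomial.X})) ∧
    ((∃ t, (span {t} : Ideal (MvPolynomial (Fin 2) K ⧸ span {f})).IsMaximal) →
      Loses (R := Polynomial (MvPolynomial (Fin 2) K ⧸ span {f})) (span {Polynomial.X ^ 2})) ∧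
    Wins (R := Polynomial (MvPolynomial (Fin 2) K ⧸ span {f})) ⊥ ∧
    Wins (span {rename Fin.succ f} : Ideal (MvPolynomial (Fin 3) K)) := by
  have hfp : Prime f := hf.prime
  have hprime : (span {f}).IsPrime := (span_singleton_prime hfp.ne_zero).2 hfp
  have hG := gor_curve K f hf
  have hnf := not_max K f hf
  have h := two (Polynomial.evalRingHom (0 : MvPolynomial (Fin 2) K ⧸ span {f}))
    (fun r => ⟨Polynomial.C r, by simp⟩) Polynomial.X (by
      intro c
      rw [← RingHom.mem_ker, Polynomial.ker_evalRingHom, map_zero, sub_zero, mem_span_singleton']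
      exact ⟨fun ⟨d, h⟩ => ⟨d, h.symm⟩, fun ⟨d, h⟩ => ⟨d, h.symm⟩⟩)
    (fun c hc => (mul_eq_zero.1 hc).resolve_right Polynomial.X_ne_zero) hG hnf
  refine ⟨fun hT => ⟨loses_bot hG hT, h.1 hT⟩, h.2.1, h.2.2, ?_⟩
  let φ : MvPolynomial (Fin 3) K →+* Polynomial (MvPolynomial (Fin 2) K ⧸ span {f}) :=
    (Polynomial.mapRingHom (Ideal.Quotient.mk (span {f}))).comp
      ((finSuccEquiv K 2 : MvPolynomial (Fin 3) K ≃ₐ[K] _) : MvPolynomial (Fin 3) K →+* _)
  have hφ : Function.Surjective φ := by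
    intro y
    obtain ⟨z, hz⟩ := Polynomial.map_surjective (Ideal.Quotient.mk (span {f}))
      Ideal.Quotient.mk_surjective y
    refine ⟨(finSuccEquiv K 2).symm z, ?_⟩
    show Polynomial.map (Ideal.Quotient.mk (span {f}))
      (finSuccEquiv K 2 ((finSuccEquiv K 2).symm z)) = y
    rw [AlgEquiv.apply_symm_apply]
    exact hz
  have h1 := wins_comap φ hφ h.2.2
  have h2 : Ideal.comap φ ⊥ = span {rename Fin.succ f} := by
    ext x
    rw [mem_comap, Ideal.mem_bot]
    have e1 : φ x = 0 ↔ finSuccEquiv K 2 x ∈ span {Polynomial.C f} := by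
      have e2 : φ x = Polynomial.mapRingHom (Ideal.Quotient.mk (span {f})) (finSuccEquiv K 2 x) := rfl
      rw [e2, ← RingHom.mem_ker, Polynomial.ker_mapRingHom, Ideal.mk_ker, Ideal.map_span,
        Set.image_singleton]
    rw [e1, mem_span_singleton', mem_span_singleton']
    constructor
    · rintro ⟨y, hy⟩
      refine ⟨(finSuccEquiv K 2).symm y, ?_⟩
      apply (finSuccEquiv K 2).injective
      rw [map_mul, AlgEquiv.apply_symm_apply, fin_succ, hy]
    · rintro ⟨y, hy⟩
      refine ⟨finSuccEquiv K 2 y, ?_⟩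
      rw [← hy, map_mul, fin_succ]
  rwa [h2] at h1

end Pool.Agent.H170IC
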