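import Mathlib

set_option autoImplicit false

noncomputable section

namespace Pool.Agent.H170IC

open Ideal

/-- the player to move can force a win from the position `I` -/
inductive Wins {R : Type} [CommRing R] : Ideal R → Prop
  | mk (I : Ideal R) (a : R) (ha : a ∉ I) (hne : I ⊔ span {a} ≠ ⊤)
      (h : ∀ b : R, b ∉ I ⊔ span {a} → I ⊔ span {a} ⊔ span {b} ≠ ⊤ →
        Wins (I ⊔ span {a} ⊔ span {b})) : Wins I

/-- the player to move loses from the position `J` -/
def Loses {R : Type} [CommRing R] (J : Ideal R) : Prop :=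
  ∀ b : R, b ∉ J → J ⊔ span {b} ≠ ⊤ → Wins (J ⊔ span {b})

theorem wins_of {R : Type} [CommRing R] {I : Ideal R} (a : R) (ha : a ∉ I)
    (hne : I ⊔ span {a} ≠ ⊤) (h : Loses (I ⊔ span {a})) : Wins I := Wins.mk I a ha hne h

theorem wins_inv {R : Type} [CommRing R] {I : Ideal R} (h : Wins I) :
    ∃ a, a ∉ I ∧ I ⊔ span {a} ≠ ⊤ ∧ Loses (I ⊔ span {a}) := by
  cases h with
  | mk _ a ha hne h => exact ⟨a, ha, hne, h⟩

theorem det {R : Type} [CommRing R] [IsNoetherianRing R] (J : Ideal R) : Wins J ∨ Loses J := by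
  have hwf : WellFounded (fun a b : Ideal R => b < a) := wellFounded_gt
  induction J using hwf.induction with
  | _ J ih =>
    by_cases h : ∃ a, a ∉ J ∧ J ⊔ span {a} ≠ ⊤ ∧ Loses (J ⊔ span {a})
    · obtain ⟨a, h1, h2, h3⟩ := h
      exact Or.inl (wins_of a h1 h2 h3)
    · right
      intro b hb hb2
      have hlt : J < J ⊔ span {b} := by
        refine lt_of_le_of_ne le_sup_left fun he => hb ?_
        rw [he]
        exact (le_sup_right : span {b} ≤ J ⊔ span {b}) (mem_span_singleton_self b)
      rcases ih _ hlt with h1 | h1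
      · exact h1
      · exact absurd ⟨b, hb, hb2, h1⟩ h

theorem loses_max {R : Type} [CommRing R] {J : Ideal R} (h : J.IsMaximal) : Loses J := by
  intro b hb hb2
  exfalso
  apply hb2
  apply h.1.2
  refine lt_of_le_of_ne le_sup_left fun he => hb ?_
  rw [he]
  exact (le_sup_right : span {b} ≤ J ⊔ span {b}) (mem_span_singleton_self b)

/-- strategy stealing -/
theorem steal {R : Type} [CommRing R] [IsNoetherianRing R] {J : Ideal R} (s : R) (hs : s ∉ J)
    (hne : J ⊔ span {s} ≠ ⊤) (h : ∀ c, c ∉ J → s ∈ J ⊔ span {c}) : Wins J := by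
  rcases det (J ⊔ span {s}) with h1 | h1
  · obtain ⟨b, hb, hb2, hb3⟩ := wins_inv h1
    have hbJ : b ∉ J := fun h' => hb (le_sup_left (a := J) h')
    have e : J ⊔ span {s} ⊔ span {b} = J ⊔ span {b} := by
      apply le_antisymm
      · refine sup_le (sup_le le_sup_left ?_) le_sup_right
        rw [span_singleton_le_iff_mem]
        exact h b hbJ
      · exact sup_le (le_sup_left.trans le_sup_left) le_sup_right
    rw [e] at hb2 hb3
    exact wins_of b hbJ hb2 hb3
  · exact wins_of s hs hne h1

theorem mem_sup_span {R : Type} [CommRing R] {J : Ideal R} {a x : R} :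
    x ∈ J ⊔ span {a} ↔ ∃ j ∈ J, ∃ r, x = j + r * a := by
  rw [Submodule.mem_sup]
  constructor
  · rintro ⟨j, hj, y, hy, rfl⟩
    obtain ⟨r, rfl⟩ := mem_span_singleton'.1 hy
    exact ⟨j, hj, r, rfl⟩
  · rintro ⟨j, hj, r, rfl⟩
    exact ⟨j, hj, r * a, mem_span_singleton'.2 ⟨r, rfl⟩, rfl⟩

/-- a nontrivial idempotent -/
theorem idem {R : Type} [CommRing R] [IsNoetherianRing R] {J : Ideal R} (e : R)
    (he : e * e - e ∈ J) (h0 : e ∉ J) (h1 : 1 - e ∉ J) : Wins J := by
  have hne : J ⊔ span {e} ≠ ⊤ := by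
    intro h
    have : (1 : R) ∈ J ⊔ span {e} := by rw [h]; trivial
    obtain ⟨j, hj, r, hr⟩ := mem_sup_span.1 this
    apply h1
    have e1 : 1 - e = (1 - e) * j - r * (e * e - e) := by
      have : (1 - e) * 1 = (1 - e) * (j + r * e) := by rw [← hr]
      linear_combination this
    rw [e1]
    exact J.sub_mem (J.mul_mem_left _ hj) (J.mul_mem_left _ he)
  rcases det (J ⊔ span {e}) with h2 | h2
  · obtain ⟨a, ha, ha2, ha3⟩ := wins_inv h2
    have hc : J ⊔ span {e + (1 - e) * a} = J ⊔ span {e} ⊔ span {a} := by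
      have hem : e ∈ J ⊔ span {e + (1 - e) * a} := by
        refine mem_sup_span.2 ⟨-(1 - a) * (e * e - e), J.mul_mem_left _ he, e, by ring⟩
      apply le_antisymm
      · refine sup_le (le_sup_left.trans le_sup_left) ?_
        rw [span_singleton_le_iff_mem]
        refine Ideal.add_mem _ ?_ (Ideal.mul_mem_left _ _ ?_)
        · exact (le_sup_left : J ⊔ span {e} ≤ _) ((le_sup_right : span {e} ≤ _) (mem_span_singleton_self e))
        · exact (le_sup_right : span {a} ≤ _) (mem_span_singleton_self a)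
      · refine sup_le (sup_le le_sup_left ?_) ?_
        · rw [span_singleton_le_iff_mem]; exact hem
        · rw [span_singleton_le_iff_mem]
          have hm : e + (1 - e) * a ∈ J ⊔ span {e + (1 - e) * a} :=
            (le_sup_right : span {_} ≤ _) (mem_span_singleton_self _)
          have h3 := Ideal.sub_mem _ hm (Ideal.mul_mem_right (1 - a) _ hem)
          have h4 : (e + (1 - e) * a) - e * (1 - a) = a := by ring
          rw [h4] at h3
          exact h3
    refine wins_of (e + (1 - e) * a) ?_ ?_ ?_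
    · intro h
      apply h0
      have : e = e * (e + (1 - e) * a) - (1 - a) * (e * e - e) := by ring
      rw [this]
      exact J.sub_mem (J.mul_mem_left _ h) (J.mul_mem_left _ he)
    · rw [hc]; exact ha2
    · rw [hc]; exact ha3
  · exact wins_of e h0 hne h2

theorem comap_sup {R S : Type} [CommRing R] [CommRing S] (φ : R →+* S)
    (hφ : Function.Surjective φ) (I : Ideal S) (a : R) :
    (I ⊔ span {φ a}).comap φ = I.comap φ ⊔ span {a} := by
  ext x
  rw [mem_comap, mem_sup_span, mem_sup_span]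
  constructor
  · rintro ⟨j, hj, r, hr⟩
    obtain ⟨r', rfl⟩ := hφ r
    refine ⟨x - r' * a, ?_, r', by ring⟩
    rw [mem_comap, map_sub, map_mul, hr]
    simpa using hj
  · rintro ⟨j, hj, r, rfl⟩
    exact ⟨φ j, hj, φ r, by rw [map_add, map_mul]⟩

theorem comap_ne_top {R S : Type} [CommRing R] [CommRing S] (φ : R →+* S)
    (I : Ideal S) : I.comap φ ≠ ⊤ ↔ I ≠ ⊤ := by
  rw [Ne, Ne, Ideal.comap_eq_top_iff]

/-- transfer along surjective homomorphisms -/
theorem wins_comap {R S : Type} [CommRing R] [CommRing S] (φ : R →+* S)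
    (hφ : Function.Surjective φ) {I : Ideal S} (h : Wins I) : Wins (I.comap φ) := by
  induction h with
  | mk I a ha hne _ ih =>
    obtain ⟨a', rfl⟩ := hφ a
    refine Wins.mk _ a' (fun h' => ha h') ?_ ?_
    · rw [← comap_sup φ hφ]; exact (comap_ne_top φ _).2 hne
    · intro b hb hb2
      rw [← comap_sup φ hφ] at hb hb2 ⊢
      rw [← comap_sup φ hφ] at hb2 ⊢
      exact ih (φ b) (fun h' => hb h') ((comap_ne_top φ _).1 hb2)

theorem loses_comap {R S : Type} [CommRing R] [CommRing S] (φ : R →+* S)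
    (hφ : Function.Surjective φ) {I : Ideal S} (h : Loses I) : Loses (I.comap φ) := by
  intro b hb hb2
  rw [← comap_sup φ hφ] at hb2 ⊢
  exact wins_comap φ hφ (h (φ b) (fun h' => hb h') ((comap_ne_top φ _).1 hb2))

end Pool.Agent.H170IC
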