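import Pool.Agent.H170IC.Game

set_option autoImplicit false

noncomputable section

namespace Pool.Agent.H170IC

open Ideal

/-- every proper quotient by a nonzero principal ideal has a nontrivial idempotent or a smallest
nonzero ideal -/
def Gor (O : Type) [CommRing O] : Prop :=
  ∀ α : O, α ≠ 0 → span {α} ≠ ⊤ →
    (∃ e : O, e * e - e ∈ span {α} ∧ e ∉ span {α} ∧ 1 - e ∉ span {α}) ∨
    (∃ σ : O, σ ∉ span {α} ∧ ∀ c : O, c ∉ span {α} → σ ∈ span {α} ⊔ span {c})

theorem loses_bot {O : Type} [CommRing O] [IsNoetherianRing O] (hG : Gor O)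
    (hT : ∀ t : O, ¬ (span {t}).IsMaximal) : Loses (⊥ : Ideal O) := by
  intro a ha hne
  rw [bot_sup_eq] at hne ⊢
  have ha0 : a ≠ 0 := fun h => ha (by rw [h]; exact zero_mem _)
  rcases hG a ha0 hne with ⟨e, h1, h2, h3⟩ | ⟨σ, h1, h2⟩
  · exact idem e h1 h2 h3
  · by_cases hs : span {a} ⊔ span {σ} = ⊤
    · exfalso
      apply hT a
      refine ⟨hne, fun J hJ => ?_⟩
      obtain ⟨c, hc, hc'⟩ := SetLike.exists_of_lt hJ
      rw [eq_top_iff, ← hs]
      refine sup_le hJ.le ?_
      rw [span_singleton_le_iff_mem]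
      have h4 : span {a} ⊔ span {c} ≤ J :=
        sup_le hJ.le ((span_singleton_le_iff_mem _).2 hc)
      exact h4 (h2 c hc')
    · exact steal σ h1 hs h2

section

variable {C O : Type} [CommRing C] [CommRing O] [IsDomain O] (π : C →+* O)
  (hπ : Function.Surjective π) (p : C) (hp : p * p = 0)
  (hker : ∀ c, π c = 0 ↔ ∃ d, c = d * p) (hann : ∀ c, c * p = 0 → π c = 0) (t : C)
  (ht : (span {π t}).IsMaximal) (ht0 : π t ≠ 0)

/-- the ideals `(t ^ m p, t ^ (m + 1))` -/
def E (p t : C) (m : ℕ) : Ideal C := span {t ^ m * p} ⊔ span {t ^ (m + 1)}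

theorem mem_E {m : ℕ} {x : C} : x ∈ E p t m ↔ ∃ d e, x = d * (t ^ m * p) + e * t ^ (m + 1) := by
  unfold E
  rw [mem_sup_span]
  constructor
  · rintro ⟨j, hj, r, rfl⟩
    obtain ⟨d, rfl⟩ := mem_span_singleton'.1 hj
    exact ⟨d, r, rfl⟩
  · rintro ⟨d, e, rfl⟩
    exact ⟨d * (t ^ m * p), mem_span_singleton'.2 ⟨d, rfl⟩, e, rfl⟩

include hp in
theorem pow_aux (y z : C) (k : ℕ) : ∃ a, (y * t + z * p) ^ (k + 1) =
    y ^ (k + 1) * t ^ (k + 1) + a * (t ^ k * p) := by
  induction k with
  | zero => exact ⟨z, by ring⟩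
  | succ k ih =>
    obtain ⟨a, ha⟩ := ih
    refine ⟨y ^ (k + 1) * z + a * y, ?_⟩
    rw [pow_succ, ha]
    linear_combination (a * z * t ^ k) * hp

include hπ hp hker ht in
theorem unitE (u : C) (hu : π u ∉ span {π t}) (m : ℕ) : ∃ x, 1 - x * u ∈ E p t m := by
  have h1 : span {π t} ⊔ span {π u} = ⊤ := by
    apply ht.1.2
    refine lt_of_le_of_ne le_sup_left fun he => hu ?_
    rw [he]
    exact (le_sup_right : span {π u} ≤ _) (mem_span_singleton_self _)
  have h2 : (1 : O) ∈ span {π t} ⊔ span {π u} := by rw [h1]; trivial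
  obtain ⟨j, hj, r, hr⟩ := mem_sup_span.1 h2
  obtain ⟨y, rfl⟩ := mem_span_singleton'.1 hj
  obtain ⟨x, rfl⟩ := hπ r
  obtain ⟨y, rfl⟩ := hπ y
  have h3 : π (1 - x * u - y * t) = 0 := by
    rw [map_sub, map_sub, map_one, map_mul, map_mul, hr]; ring
  obtain ⟨z, hz⟩ := (hker _).1 h3
  have h4 : 1 - x * u = y * t + z * p := by linear_combination hz
  obtain ⟨a, ha⟩ := pow_aux p hp t y z m
  have h5 : (1 - x * u) ^ (m + 1) ∈ E p t m := by
    rw [h4, ha, mem_E]
    exact ⟨a, y ^ (m + 1), by ring⟩
  have h6 : (1 - (1 - x * u)) ∣ 1 ^ (m + 1) - (1 - x * u) ^ (m + 1) := sub_dvd_pow_sub_pow _ _ _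
  obtain ⟨w, hw⟩ := h6
  refine ⟨x * w, ?_⟩
  have h7 : 1 - x * w * u = (1 - x * u) ^ (m + 1) := by
    rw [one_pow] at hw
    linear_combination hw
  rw [h7]; exact h5

include hπ hker in
theorem nf (s : C) (k : ℕ) (hs : π s ∉ span {π t ^ k}) :
    ∃ j, j < k ∧ ∃ v δ, s = v * t ^ j + δ * p ∧ π v ∉ span {π t} := by
  induction k with
  | zero => exact absurd (by rw [pow_zero, span_singleton_one]; trivial) hs
  | succ k ih =>
    by_cases h : π s ∈ span {π t ^ k}
    · obtain ⟨r, hr⟩ := mem_span_singleton'.1 h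
      obtain ⟨v, rfl⟩ := hπ r
      have h1 : π (s - v * t ^ k) = 0 := by rw [map_sub, map_mul, map_pow, hr, sub_self]
      obtain ⟨δ, hδ⟩ := (hker _).1 h1
      refine ⟨k, by omega, v, δ, by linear_combination hδ, fun h2 => hs ?_⟩
      obtain ⟨v', hv'⟩ := mem_span_singleton'.1 h2
      rw [← hr, ← hv']
      exact mem_span_singleton'.2 ⟨v', by ring⟩
    · obtain ⟨j, hj, h1⟩ := ih h
      exact ⟨j, by omega, h1⟩

include hker ht in
theorem E_ne_top (m : ℕ) : E p t m ≠ ⊤ := by
  intro h
  have h1 : (1 : C) ∈ E p t m := by rw [h]; trivial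
  obtain ⟨d, e, hde⟩ := (mem_E p t).1 h1
  have hpp : π p = 0 := (hker p).2 ⟨1, by ring⟩
  have h2 := congrArg π hde
  rw [map_one, map_add, map_mul, map_mul, map_mul, map_pow, map_pow, hpp] at h2
  apply ht.1.1
  rw [Ideal.eq_top_iff_one]
  exact mem_span_singleton'.2 ⟨π e * π t ^ m, by rw [h2]; ring⟩

include hπ hp hker hann ht ht0 in
theorem loses_E (m : ℕ) : Loses (E p t m) := by
  have hpp : π p = 0 := (hker p).2 ⟨1, by ring⟩
  have hne1 : (1 : O) ∉ span {π t} := fun h => ht.1.1 ((Ideal.eq_top_iff_one _).2 h)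
  have hprime := ht.isPrime
  induction m using Nat.strong_induction_on with
  | _ m ih =>
  intro a ha hne
  have ham : π a ∈ span {π t} := by
    by_contra hcon
    obtain ⟨x, hx⟩ := unitE π hπ p hp hker t ht a hcon m
    apply hne
    rw [Ideal.eq_top_iff_one, mem_sup_span]
    exact ⟨_, hx, x, by ring⟩
  -- the two replies
  have A2 : ∀ (j : ℕ) (v g ε : C), j < m → π v ∉ span {π t} → ε ∈ E p t m →
      a = v * t ^ j * p + t ^ (j + 1) * g + ε → Wins (E p t m ⊔ span {a}) := by
    intro j v g ε hj hv hε hae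
    obtain ⟨l, hl⟩ : ∃ l, m = j + 1 + l := ⟨m - (j + 1), by omega⟩
    have e1 : E p t m ⊔ span {a} ⊔ span {t ^ (j + 1)} = E p t j := by
      have hEm : E p t m ≤ E p t j := by
        intro x hx
        obtain ⟨d, e, rfl⟩ := (mem_E p t).1 hx
        refine (mem_E p t).2 ⟨d * t ^ (1 + l), e * t ^ (1 + l), ?_⟩
        rw [hl]; ring
      apply le_antisymm
      · refine sup_le (sup_le hEm ?_) ?_
        · rw [span_singleton_le_iff_mem, hae]
          refine Ideal.add_mem _ ?_ (hEm hε)
          exact (mem_E p t).2 ⟨v, g, by ring⟩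
        · rw [span_singleton_le_iff_mem]
          exact (mem_E p t).2 ⟨0, 1, by ring⟩
      · have hb : t ^ (j + 1) ∈ E p t m ⊔ span {a} ⊔ span {t ^ (j + 1)} :=
          (le_sup_right : span {_} ≤ _) (mem_span_singleton_self _)
        have hE' : E p t m ≤ E p t m ⊔ span {a} ⊔ span {t ^ (j + 1)} :=
          le_sup_left.trans le_sup_left
        have ha' : a ∈ E p t m ⊔ span {a} ⊔ span {t ^ (j + 1)} :=
          (le_sup_left : E p t m ⊔ span {a} ≤ _)
            ((le_sup_right : span {a} ≤ _) (mem_span_singleton_self _))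
        refine sup_le ?_ ?_
        · rw [span_singleton_le_iff_mem]
          obtain ⟨x, hx⟩ := unitE π hπ p hp hker t ht v hv m
          have h1 : t ^ j * p = x * (a - t ^ (j + 1) * g - ε) + (1 - x * v) * (t ^ j * p) := by
            rw [hae]; ring
          rw [h1]
          refine Ideal.add_mem _ (Ideal.mul_mem_left _ _ ?_) (Ideal.mul_mem_right _ _ (hE' hx))
          exact Ideal.sub_mem _ (Ideal.sub_mem _ ha' (Ideal.mul_mem_right _ _ hb)) (hE' hε)
        · rw [span_singleton_le_iff_mem]; exact hb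
    refine wins_of (t ^ (j + 1)) ?_ ?_ ?_
    · intro hmem
      obtain ⟨j0, hj0, c, hc⟩ := mem_sup_span.1 hmem
      have h2 : j0 + c * ε ∈ E p t m := Ideal.add_mem _ hj0 (Ideal.mul_mem_left _ _ hε)
      obtain ⟨d, e, hde⟩ := (mem_E p t).1 h2
      have h3 : t ^ (j + 1) = c * (v * t ^ j * p + t ^ (j + 1) * g) + (d * (t ^ m * p) + e * t ^ (m + 1)) := by
        linear_combination hc + c * hae + hde
      have h4 : π (1 - c * g - e * t ^ (l + 1)) = 0 := by
        have h5 := congrArg π h3
        simp only [map_add, map_mul, map_pow, hpp] at h5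
        have h6 : (π t) ^ (j + 1) * (1 - π c * π g - π e * π t ^ (l + 1)) = 0 := by
          rw [hl] at h5
          linear_combination h5
        rcases mul_eq_zero.1 h6 with h7 | h7
        · exact absurd h7 (pow_ne_zero _ ht0)
        · simpa only [map_sub, map_mul, map_pow, map_one] using h7
      obtain ⟨w, hw⟩ := (hker _).1 h4
      have h8 : (c * v * t ^ j + d * t ^ m - w * t ^ (j + 1)) * p = 0 := by
        rw [hl] at h3 ⊢
        linear_combination -h3 + t ^ (j + 1) * hw
      have h9 := hann _ h8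
      have h10 : (π t) ^ j * (π c * π v - (π w * π t - π d * π t ^ (l + 1))) = 0 := by
        rw [hl] at h9
        simp only [map_add, map_sub, map_mul, map_pow] at h9
        linear_combination h9
      rcases mul_eq_zero.1 h10 with h11 | h11
      · exact absurd h11 (pow_ne_zero _ ht0)
      · have h12 : π c * π v ∈ span {π t} :=
          mem_span_singleton'.2 ⟨π w - π d * π t ^ l, by linear_combination -h11⟩
        rcases hprime.mem_or_mem h12 with h13 | h13
        · obtain ⟨c', hc'⟩ := mem_span_singleton'.1 h13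
          apply hne1
          simp only [map_sub, map_mul, map_pow, map_one] at h4
          exact mem_span_singleton'.2 ⟨c' * π g + π e * π t ^ l, by
            linear_combination -h4 + π g * hc'⟩
        · exact hv h13
    · rw [e1]; exact E_ne_top π p hker t ht j
    · rw [e1]; exact ih j hj
  have A1 : ∀ (i : ℕ) (u g ε : C), i + 1 ≤ m → π u ∉ span {π t} → ε ∈ E p t m →
      a = u * t ^ (i + 1) + g * t ^ (i + 1) * p + ε → Wins (E p t m ⊔ span {a}) := by
    intro i u g ε hj hu hε hae
    obtain ⟨l, hl⟩ : ∃ l, m = i + 1 + l := ⟨m - (i + 1), by omega⟩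
    have e1 : E p t m ⊔ span {a} ⊔ span {t ^ i * p} = E p t i := by
      have hEm : E p t m ≤ E p t i := by
        intro x hx
        obtain ⟨d, e, rfl⟩ := (mem_E p t).1 hx
        refine (mem_E p t).2 ⟨d * t ^ (1 + l), e * t ^ (1 + l), ?_⟩
        rw [hl]; ring
      apply le_antisymm
      · refine sup_le (sup_le hEm ?_) ?_
        · rw [span_singleton_le_iff_mem, hae]
          refine Ideal.add_mem _ ?_ (hEm hε)
          exact (mem_E p t).2 ⟨g * t, u, by ring⟩
        · rw [span_singleton_le_iff_mem]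
          exact (mem_E p t).2 ⟨1, 0, by ring⟩
      · have hb : t ^ i * p ∈ E p t m ⊔ span {a} ⊔ span {t ^ i * p} :=
          (le_sup_right : span {_} ≤ _) (mem_span_singleton_self _)
        have hE' : E p t m ≤ E p t m ⊔ span {a} ⊔ span {t ^ i * p} :=
          le_sup_left.trans le_sup_left
        have ha' : a ∈ E p t m ⊔ span {a} ⊔ span {t ^ i * p} :=
          (le_sup_left : E p t m ⊔ span {a} ≤ _)
            ((le_sup_right : span {a} ≤ _) (mem_span_singleton_self _))
        refine sup_le ?_ ?_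
        · rw [span_singleton_le_iff_mem]; exact hb
        · rw [span_singleton_le_iff_mem]
          obtain ⟨x, hx⟩ := unitE π hπ p hp hker t ht u hu m
          have h1 : t ^ (i + 1) = x * (a - (g * t) * (t ^ i * p) - ε) + (1 - x * u) * t ^ (i + 1) := by
            rw [hae]; ring
          rw [h1]
          refine Ideal.add_mem _ (Ideal.mul_mem_left _ _ ?_) (Ideal.mul_mem_right _ _ (hE' hx))
          exact Ideal.sub_mem _ (Ideal.sub_mem _ ha' (Ideal.mul_mem_left _ _ hb)) (hE' hε)
    refine wins_of (t ^ i * p) ?_ ?_ ?_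
    · intro hmem
      obtain ⟨j0, hj0, c, hc⟩ := mem_sup_span.1 hmem
      have h2 : j0 + c * ε ∈ E p t m := Ideal.add_mem _ hj0 (Ideal.mul_mem_left _ _ hε)
      obtain ⟨d, e, hde⟩ := (mem_E p t).1 h2
      have h3 : t ^ i * p = c * (u * t ^ (i + 1) + g * t ^ (i + 1) * p) +
          (d * (t ^ m * p) + e * t ^ (m + 1)) := by
        linear_combination hc + c * hae + hde
      have h4 : π (c * u + e * t ^ (l + 1)) = 0 := by
        have h5 := congrArg π h3
        simp only [map_add, map_mul, map_pow, hpp] at h5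
        have h6 : (π t) ^ (i + 1) * (π c * π u + π e * π t ^ (l + 1)) = 0 := by
          rw [hl] at h5
          linear_combination -h5
        rcases mul_eq_zero.1 h6 with h7 | h7
        · exact absurd h7 (pow_ne_zero _ ht0)
        · simpa only [map_add, map_mul, map_pow, map_one] using h7
      obtain ⟨w, hw⟩ := (hker _).1 h4
      have h8 : (t ^ i - w * t ^ (i + 1) - c * g * t ^ (i + 1) - d * t ^ m) * p = 0 := by
        rw [hl] at h3 ⊢
        linear_combination h3 + t ^ (i + 1) * hw
      have h9 := hann _ h8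
      have h10 : (π t) ^ i * (1 - (π w + π c * π g + π d * π t ^ l) * π t) = 0 := by
        rw [hl] at h9
        simp only [map_sub, map_mul, map_pow] at h9
        linear_combination h9
      rcases mul_eq_zero.1 h10 with h11 | h11
      · exact absurd h11 (pow_ne_zero _ ht0)
      · exact hne1 (mem_span_singleton'.2 ⟨π w + π c * π g + π d * π t ^ l, by
          linear_combination -h11⟩)
    · rw [e1]; exact E_ne_top π p hker t ht i
    · rw [e1]; exact ih i (by omega)
  by_cases h1 : π a ∈ span {π t ^ (m + 1)}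
  · obtain ⟨r, hr⟩ := mem_span_singleton'.1 h1
    obtain ⟨u, rfl⟩ := hπ r
    have h2 : π (a - u * t ^ (m + 1)) = 0 := by rw [map_sub, map_mul, map_pow, hr, sub_self]
    obtain ⟨δ, hδ⟩ := (hker _).1 h2
    have h3 : π δ ∉ span {π t ^ m} := by
      intro h3
      obtain ⟨r', hr'⟩ := mem_span_singleton'.1 h3
      obtain ⟨v, rfl⟩ := hπ r'
      have h4 : π (δ - v * t ^ m) = 0 := by rw [map_sub, map_mul, map_pow, hr', sub_self]
      obtain ⟨z, hz⟩ := (hker _).1 h4
      apply ha
      refine (mem_E p t).2 ⟨v, u, ?_⟩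
      linear_combination hδ + p * hz + z * hp
    obtain ⟨j, hj, v, δ', hv, hv'⟩ := nf π hπ p hker t δ m h3
    refine A2 j v 0 (u * t ^ (m + 1)) hj hv' ((mem_E p t).2 ⟨0, u, by ring⟩) ?_
    rw [hv] at hδ
    linear_combination hδ + δ' * hp
  · obtain ⟨i, hi, u, δ, hu, hu'⟩ := nf π hπ p hker t a (m + 1) h1
    rcases Nat.eq_zero_or_pos i with hi0 | hi0
    · exfalso
      apply hu'
      rw [hu, hi0, map_add, map_mul, map_mul, hpp, mul_zero, add_zero, pow_zero, map_one,
        mul_one] at ham
      exact ham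
    · obtain ⟨i', rfl⟩ : ∃ i', i = i' + 1 := ⟨i - 1, by omega⟩
      by_cases h2 : π δ ∈ span {π t ^ (i' + 1)}
      · obtain ⟨r', hr'⟩ := mem_span_singleton'.1 h2
        obtain ⟨g, rfl⟩ := hπ r'
        have h4 : π (δ - g * t ^ (i' + 1)) = 0 := by rw [map_sub, map_mul, map_pow, hr', sub_self]
        obtain ⟨z, hz⟩ := (hker _).1 h4
        refine A1 i' u g 0 (by omega) hu' (zero_mem _) ?_
        linear_combination hu + p * hz + z * hp
      · obtain ⟨j, hj, v, δ', hv, hv'⟩ := nf π hπ p hker t δ (i' + 1) h2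
        obtain ⟨l, hl⟩ : ∃ l, i' = j + l := ⟨i' - j, by omega⟩
        refine A2 j v (u * t ^ l) 0 (by omega) hv' (zero_mem _) ?_
        rw [hv, hl] at hu
        linear_combination hu + δ' * hp

include hπ hp hker hann in
/-- the double structure -/
theorem loses_double [IsNoetherianRing C] [IsNoetherianRing O] (hG : Gor O)
    (t : C) (ht : (span {π t}).IsMaximal) (ht0 : π t ≠ 0) : Loses (⊥ : Ideal C) := by
  have hpp : π p = 0 := (hker p).2 ⟨1, by ring⟩
  intro a ha hne
  rw [bot_sup_eq] at hne ⊢
  have ha0 : a ≠ 0 := fun h => ha (by rw [h]; exact zero_mem _)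
  by_cases hπa : π a = 0
  · obtain ⟨r, hr⟩ := (hker a).1 hπa
    have hr0 : π r ≠ 0 := by
      intro h
      obtain ⟨z, hz⟩ := (hker r).1 h
      apply ha0
      rw [hr, hz, mul_assoc, hp, mul_zero]
    obtain ⟨k, hk⟩ : ∃ k, π r ∉ span {π t ^ k} := by
      by_contra hcon
      push Not at hcon
      have h1 : π r ∈ ⨅ k : ℕ, span {π t} ^ k := by
        rw [Ideal.mem_iInf]
        intro k
        rw [Ideal.span_singleton_pow]
        exact hcon k
      rw [Ideal.iInf_pow_eq_bot_of_isDomain _ ht.1.1] at h1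
      exact hr0 h1
    obtain ⟨m, -, v, δ, hv, hv'⟩ := nf π hπ p hker t r k hk
    have hav : a = v * (t ^ m * p) := by
      rw [hr, hv]
      linear_combination δ * hp
    have e1 : span {a} ⊔ span {t ^ (m + 1)} = E p t m := by
      apply le_antisymm
      · refine sup_le ?_ ?_
        · rw [span_singleton_le_iff_mem]
          exact (mem_E p t).2 ⟨v, 0, by rw [hav]; ring⟩
        · rw [span_singleton_le_iff_mem]
          exact (mem_E p t).2 ⟨0, 1, by ring⟩
      · refine sup_le ?_ le_sup_right
        rw [span_singleton_le_iff_mem]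
        obtain ⟨x, hx⟩ := unitE π hπ p hp hker t ht v hv' m
        obtain ⟨d, e, hde⟩ := (mem_E p t).1 hx
        rw [mem_sup_span]
        refine ⟨x * a, mem_span_singleton'.2 ⟨x, rfl⟩, e * (t ^ m * p), ?_⟩
        rw [hav]
        linear_combination (t ^ m * p) * hde + d * t ^ m * t ^ m * hp
    refine wins_of (t ^ (m + 1)) ?_ ?_ ?_
    · intro h
      obtain ⟨x, hx⟩ := mem_span_singleton'.1 h
      have h1 := congrArg π hx
      rw [map_mul, hπa, mul_zero, map_pow] at h1
      exact pow_ne_zero _ ht0 h1.symm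
    · rw [e1]; exact E_ne_top π p hker t ht m
    · rw [e1]; exact loses_E π hπ p hp hker hann t ht ht0 m
  · have htop : span {π a} ≠ ⊤ := by
      intro h
      have h1 : (1 : O) ∈ span {π a} := by rw [h]; trivial
      obtain ⟨r, hr⟩ := mem_span_singleton'.1 h1
      obtain ⟨r, rfl⟩ := hπ r
      have h2 : π (1 - r * a) = 0 := by rw [map_sub, map_mul, map_one, hr, sub_self]
      obtain ⟨w, hw⟩ := (hker _).1 h2
      apply hne
      rw [Ideal.eq_top_iff_one]
      refine mem_span_singleton'.2 ⟨2 * r - r * r * a, ?_⟩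
      linear_combination -(1 - r * a + w * p) * hw - w * w * hp
    rcases hG (π a) hπa htop with ⟨e, h1, h2, h3⟩ | ⟨σ, h1, h2⟩
    · obtain ⟨e, rfl⟩ := hπ e
      obtain ⟨r, hr⟩ := mem_span_singleton'.1 h1
      obtain ⟨r, rfl⟩ := hπ r
      have h4 : π (e * e - e - r * a) = 0 := by
        rw [map_sub, map_sub, map_mul, map_mul, hr]; ring
      obtain ⟨w, hw⟩ := (hker _).1 h4
      have hsq : (e * e - e) * (e * e - e) ∈ span {a} := by
        refine mem_span_singleton'.2 ⟨r * r * a + 2 * r * (w * p), ?_⟩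
        have h5 : e * e - e = r * a + w * p := by linear_combination hw
        rw [h5]
        linear_combination -(w * w) * hp
      refine idem (3 * (e * e) - 2 * (e * e * e)) ?_ ?_ ?_
      · have h6 := Ideal.mul_mem_right (4 * (e * e) - 4 * e - 3) _ hsq
        convert h6 using 1
        ring
      · intro h7
        obtain ⟨y, hy⟩ := mem_span_singleton'.1 h7
        apply h2
        have h8 : π e = π y * π a + (2 * π e - 1) * (π e * π e - π e) := by
          have h9 := congrArg π hy
          simp only [map_sub, map_mul, map_ofNat] at h9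
          linear_combination -h9
        rw [h8]
        exact Ideal.add_mem _ (mem_span_singleton'.2 ⟨_, rfl⟩) (Ideal.mul_mem_left _ _ h1)
      · intro h7
        obtain ⟨y, hy⟩ := mem_span_singleton'.1 h7
        apply h3
        have h8 : 1 - π e = π y * π a - (2 * π e - 1) * (π e * π e - π e) := by
          have h9 := congrArg π hy
          simp only [map_sub, map_mul, map_ofNat, map_one] at h9
          linear_combination -h9
        rw [h8]
        exact Ideal.sub_mem _ (mem_span_singleton'.2 ⟨_, rfl⟩) (Ideal.mul_mem_left _ _ h1)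
    · obtain ⟨σ, rfl⟩ := hπ σ
      refine steal (p * σ) ?_ ?_ ?_
      · intro h
        obtain ⟨c, hc⟩ := mem_span_singleton'.1 h
        have h3 := congrArg π hc
        rw [map_mul, map_mul, hpp, zero_mul] at h3
        rcases mul_eq_zero.1 h3 with h4 | h4
        · obtain ⟨c', hc'⟩ := (hker _).1 h4
          have h5 : (σ - c' * a) * p = 0 := by
            linear_combination -hc + a * hc'
          have h6 := hann _ h5
          apply h1
          refine mem_span_singleton'.2 ⟨π c', ?_⟩
          rw [map_sub, map_mul] at h6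
          linear_combination -h6
        · exact hπa h4
      · intro h
        have h3 : (1 : C) ∈ span {a} ⊔ span {p * σ} := by rw [h]; trivial
        obtain ⟨j, hj, r, hr⟩ := mem_sup_span.1 h3
        obtain ⟨x, rfl⟩ := mem_span_singleton'.1 hj
        apply htop
        rw [Ideal.eq_top_iff_one]
        have h4 := congrArg π hr
        rw [map_add, map_mul, map_mul, map_mul, hpp, map_one] at h4
        exact mem_span_singleton'.2 ⟨π x, by linear_combination -h4⟩
      · intro c hc
        by_cases h3 : π c ∈ span {π a}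
        · obtain ⟨v, hv⟩ := mem_span_singleton'.1 h3
          obtain ⟨v, rfl⟩ := hπ v
          have h4 : π (c - v * a) = 0 := by rw [map_sub, map_mul, hv, sub_self]
          obtain ⟨u, hu⟩ := (hker _).1 h4
          have h5 : π u ∉ span {π a} := by
            intro h5
            obtain ⟨v', hv'⟩ := mem_span_singleton'.1 h5
            obtain ⟨v', rfl⟩ := hπ v'
            have h6 : π (u - v' * a) = 0 := by rw [map_sub, map_mul, hv', sub_self]
            obtain ⟨z, hz⟩ := (hker _).1 h6
            apply hc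
            exact mem_span_singleton'.2 ⟨v + v' * p, by
              linear_combination -hu - p * hz - z * hp⟩
          obtain ⟨j, hj, z, hz⟩ := mem_sup_span.1 (h2 _ h5)
          obtain ⟨y, rfl⟩ := mem_span_singleton'.1 hj
          obtain ⟨y, rfl⟩ := hπ y
          obtain ⟨z, rfl⟩ := hπ z
          have h7 : π (σ - y * a - z * u) = 0 := by
            simp only [map_sub, map_mul]
            linear_combination hz
          obtain ⟨x, hx⟩ := (hker _).1 h7
          rw [mem_sup_span]
          refine ⟨(y * p - z * v) * a, mem_span_singleton'.2 ⟨_, rfl⟩, z, ?_⟩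
          linear_combination p * hx + x * hp - z * hu
        · obtain ⟨j, hj, z, hz⟩ := mem_sup_span.1 (h2 _ h3)
          obtain ⟨y, rfl⟩ := mem_span_singleton'.1 hj
          obtain ⟨y, rfl⟩ := hπ y
          obtain ⟨z, rfl⟩ := hπ z
          have h7 : π (σ - y * a - z * c) = 0 := by
            simp only [map_sub, map_mul]
            linear_combination hz
          obtain ⟨x, hx⟩ := (hker _).1 h7
          rw [mem_sup_span]
          refine ⟨(y * p) * a, mem_span_singleton'.2 ⟨_, rfl⟩, z * p, ?_⟩
          linear_combination p * hx + x * hp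

end

end Pool.Agent.H170IC
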